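import Mathlib

set_option autoImplicit false

/-!
Slowly varying functions that oscillate on every fast crossing (MP_74ecc6_co).
-/

namespace Pool.Agent.Helper45.DR

/-- distance of `t` to the nearest multiple of `2 L` -/
def tent (L t : ℕ) : ℤ := if t % (2 * L) ≤ L then ((t % (2 * L) : ℕ) : ℤ)
  else 2 * L - ((t % (2 * L) : ℕ) : ℤ)

lemma tent_nonneg (L t : ℕ) (hL : 0 < L) : 0 ≤ tent L t := by
  unfold tent
  have := Nat.mod_lt t (show 0 < 2 * L by omega)
  split_ifs <;> omega

lemma tent_le (L t : ℕ) : tent L t ≤ L := by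
  unfold tent
  split_ifs <;> omega

lemma tent_succ (L t : ℕ) (hL : 0 < L) : |tent L (t + 1) - tent L t| ≤ 1 := by
  unfold tent
  have h2 : 0 < 2 * L := by omega
  have h1 := Nat.mod_lt t h2
  have h3 : (t + 1) % (2 * L) = (t % (2 * L) + 1) % (2 * L) := by
    rw [Nat.add_mod, Nat.mod_eq_of_lt (show 1 < 2 * L by omega)]
  rw [h3]
  generalize t % (2 * L) = a at *
  rw [abs_le]
  by_cases h : a + 1 = 2 * L
  · rw [h, Nat.mod_self]
    split_ifs <;> constructor <;> push_cast <;> omega
  · rw [Nat.mod_eq_of_lt (show a + 1 < 2 * L by omega)]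
    split_ifs <;> constructor <;> push_cast <;> omega

lemma tent_add (L t d : ℕ) (hL : 0 < L) : |tent L (t + d) - tent L t| ≤ d := by
  induction d with
  | zero => simp
  | succ d ih =>
    have h1 := tent_succ L (t + d) hL
    rw [abs_le] at *
    rw [← add_assoc]
    push_cast
    constructor <;> linarith [h1.1, h1.2, ih.1, ih.2]

lemma tent_lip (L t t' : ℕ) (hL : 0 < L) : |tent L t - tent L t'| ≤ |(t : ℤ) - t'| := by
  rcases le_total t t' with h | h
  · obtain ⟨d, rfl⟩ := Nat.exists_eq_add_of_le h
    rw [abs_sub_comm]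
    refine (tent_add L t d hL).trans ?_
    rw [abs_sub_comm]
    push_cast
    simp
  · obtain ⟨d, rfl⟩ := Nat.exists_eq_add_of_le h
    refine (tent_add L t' d hL).trans ?_
    push_cast
    simp

lemma tent_amp (L t t' : ℕ) (hL : 0 < L) : |tent L t - tent L t'| ≤ L := by
  rw [abs_le]
  have := tent_nonneg L t hL
  have := tent_nonneg L t' hL
  have := tent_le L t
  have := tent_le L t'
  constructor <;> linarith

lemma tent_cross (L c : ℕ) (hL : 0 < L) :
    |tent L (c * L) - tent L ((c + 1) * L)| = L := by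
  rcases Nat.even_or_odd' c with ⟨e, rfl | rfl⟩
  · have h1 : (2 * e * L) % (2 * L) = 0 := by
      rw [show 2 * e * L = (2 * L) * e by ring]
      exact Nat.mul_mod_right _ _
    have h2 : ((2 * e + 1) * L) % (2 * L) = L := by
      rw [show (2 * e + 1) * L = L + (2 * L) * e by ring, Nat.add_mul_mod_self_left]
      exact Nat.mod_eq_of_lt (by omega)
    unfold tent
    rw [h1, h2]
    simp
  · have h2 : ((2 * e + 1) * L) % (2 * L) = L := by
      rw [show (2 * e + 1) * L = L + (2 * L) * e by ring, Nat.add_mul_mod_self_left]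
      exact Nat.mod_eq_of_lt (by omega)
    have h1 : ((2 * e + 1 + 1) * L) % (2 * L) = 0 := by
      rw [show (2 * e + 1 + 1) * L = (2 * L) * (e + 1) by ring]
      exact Nat.mul_mod_right _ _
    unfold tent
    rw [h1, h2]
    simp

/-- A lacunary sum of tents: a slow function of `k` coordinates that changes by more than `s`
whenever one of the coordinates performs a sufficiently fast crossing at its own scale. -/
theorem crook (Q k : ℕ) : ∃ (l : Fin k → ℕ) (L : ℕ) (F : (Fin k → ℕ) → ℤ) (A s : ℕ),
    0 < L ∧ (∀ i, 0 < l i ∧ l i ∣ L) ∧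
    (∀ τ τ', |F τ - F τ'| ≤ A) ∧
    (∀ τ τ' : Fin k → ℕ, (∀ i, |(τ i : ℤ) - τ' i| ≤ 1) → |F τ - F τ'| ≤ s) ∧
    (∀ (i : Fin k) (c : ℕ) (τ τ' : Fin k → ℕ), τ i = c * l i → τ' i = (c + 1) * l i →
      (∀ j, |(τ j : ℤ) - τ' j| ≤ Q * l i) → (s : ℤ) + 1 ≤ |F τ - F τ'|) := by
  induction k with
  | zero =>
    refine ⟨fun _ => 1, 1, fun _ => 0, 0, 0, one_pos, fun i => i.elim0, ?_, ?_, fun i => i.elim0⟩
    · intro τ τ'
      simp
    · intro τ τ' _
      simp
  | succ k ih =>
    obtain ⟨l, L, F, A, s, hL, hl, hA, hs, htype⟩ := ih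
    set B : ℕ := Q * L + 2 with hB
    set M : ℕ := L * (B * A + B * s + 2) with hM
    have hMpos : 0 < M := by positivity
    have hMge : B * A + B * s + 2 ≤ M := Nat.le_mul_of_pos_left _ hL
    refine ⟨Fin.cons M l, M, fun τ => B * F (fun i => τ i.succ) + tent M (τ 0),
      B * A + M, B * s + 1, hMpos, ?_, ?_, ?_, ?_⟩
    · intro i
      refine Fin.cases ?_ (fun i => ?_) i
      · simp only [Fin.cons_zero]
        exact ⟨hMpos, dvd_rfl⟩
      · simp only [Fin.cons_succ]
        exact ⟨(hl i).1, (hl i).2.trans (Dvd.intro _ rfl)⟩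
    · intro τ τ'
      have h1 := hA (fun i => τ i.succ) (fun i => τ' i.succ)
      have h2 := tent_amp M (τ 0) (τ' 0) hMpos
      have h3 : |(B : ℤ) * (F (fun i => τ i.succ) - F (fun i => τ' i.succ))| ≤ B * A := by
        rw [abs_mul, Nat.abs_cast]
        exact mul_le_mul_of_nonneg_left h1 (by positivity)
      have h4 := abs_add_le ((B : ℤ) * (F (fun i => τ i.succ) - F (fun i => τ' i.succ)))
        (tent M (τ 0) - tent M (τ' 0))
      have h5 : (B : ℤ) * F (fun i => τ i.succ) + tent M (τ 0) -
          (B * F (fun i => τ' i.succ) + tent M (τ' 0)) =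
          (B : ℤ) * (F (fun i => τ i.succ) - F (fun i => τ' i.succ)) +
            (tent M (τ 0) - tent M (τ' 0)) := by ring
      rw [h5]
      push_cast
      linarith
    · intro τ τ' hτ
      have h1 := hs (fun i => τ i.succ) (fun i => τ' i.succ) (fun i => hτ i.succ)
      have h2 := (tent_lip M (τ 0) (τ' 0) hMpos).trans (hτ 0)
      have h3 : |(B : ℤ) * (F (fun i => τ i.succ) - F (fun i => τ' i.succ))| ≤ B * s := by
        rw [abs_mul, Nat.abs_cast]
        exact mul_le_mul_of_nonneg_left h1 (by positivity)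
      have h4 := abs_add_le ((B : ℤ) * (F (fun i => τ i.succ) - F (fun i => τ' i.succ)))
        (tent M (τ 0) - tent M (τ' 0))
      have h5 : (B : ℤ) * F (fun i => τ i.succ) + tent M (τ 0) -
          (B * F (fun i => τ' i.succ) + tent M (τ' 0)) =
          (B : ℤ) * (F (fun i => τ i.succ) - F (fun i => τ' i.succ)) +
            (tent M (τ 0) - tent M (τ' 0)) := by ring
      rw [h5]
      push_cast
      linarith
    · intro i c τ τ' h0 h1 hclose
      have h5 : (B : ℤ) * F (fun i => τ i.succ) + tent M (τ 0) -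
          (B * F (fun i => τ' i.succ) + tent M (τ' 0)) =
          (B : ℤ) * (F (fun i => τ i.succ) - F (fun i => τ' i.succ)) +
            (tent M (τ 0) - tent M (τ' 0)) := by ring
      rw [h5]
      revert h0 h1 hclose
      refine Fin.cases ?_ (fun i => ?_) i
      · intro h0 h1 _
        simp only [Fin.cons_zero] at h0 h1
        have h2 := tent_cross M c hMpos
        rw [← h0, ← h1] at h2
        have h3 : |(B : ℤ) * (F (fun i => τ i.succ) - F (fun i => τ' i.succ))| ≤ B * A := by
          rw [abs_mul, Nat.abs_cast]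
          exact mul_le_mul_of_nonneg_left (hA _ _) (by positivity)
        have h4 := abs_sub_abs_le_abs_sub (tent M (τ 0) - tent M (τ' 0))
          (-((B : ℤ) * (F (fun i => τ i.succ) - F (fun i => τ' i.succ))))
        rw [abs_neg, sub_neg_eq_add, h2] at h4
        have h6 : ((B * A + B * s + 2 : ℕ) : ℤ) ≤ (M : ℕ) := by exact_mod_cast hMge
        push_cast at h6 ⊢
        rw [add_comm (tent M (τ 0) - tent M (τ' 0))] at h4
        linarith
      · intro h0 h1 hclose
        simp only [Fin.cons_succ] at h0 h1 hclose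
        have h2 := htype i c (fun i => τ i.succ) (fun i => τ' i.succ) h0 h1
          (fun j => hclose j.succ)
        have h3 : (B : ℤ) * (s + 1) ≤
            |(B : ℤ) * (F (fun i => τ i.succ) - F (fun i => τ' i.succ))| := by
          rw [abs_mul, Nat.abs_cast]
          exact mul_le_mul_of_nonneg_left h2 (by positivity)
        have h6 := (tent_lip M (τ 0) (τ' 0) hMpos).trans (hclose 0)
        have h4 := abs_sub_abs_le_abs_sub
          ((B : ℤ) * (F (fun i => τ i.succ) - F (fun i => τ' i.succ)))
          (-(tent M (τ 0) - tent M (τ' 0)))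
        rw [abs_neg, sub_neg_eq_add] at h4
        have h7 : (Q : ℤ) * l i ≤ Q * L := by
          have : l i ≤ L := Nat.le_of_dvd hL (hl i).2
          exact_mod_cast Nat.mul_le_mul_left Q this
        have h8 : (B : ℤ) = Q * L + 2 := by rw [hB]; push_cast; ring
        push_cast
        nlinarith
end Pool.Agent.Helper45.DR
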