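import Pool.Agent.Helper45.DR.Crook

set_option autoImplicit false

/-!
A fast crossing of one coordinate is seen by the parity of the slow function
(MP_74ecc6_co).
-/

namespace Pool.Agent.Helper45.DR

lemma fast_cross (u : ℕ → ℕ) (h li R Q : ℕ) (hli : 0 < li) (hR : 0 < R) (h0 : u 0 = 0)
    (hh : u h = R * li) (hstep : ∀ j < h, u (j + 1) ≤ u j + 1) (hlen : h ≤ Q * (R * li)) :
    ∃ p q c, p ≤ q ∧ q ≤ h ∧ q - p ≤ Q * li ∧ u p = c * li ∧ u q = (c + 1) * li := by
  classical
  by_contra hcon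
  push Not at hcon
  have hex : ∀ c, c ≤ R → ∃ j, c * li ≤ u j := fun c hc =>
    ⟨h, by rw [hh]; exact Nat.mul_le_mul_right _ hc⟩
  let a : ℕ → ℕ := fun c => if hc : c ≤ R then Nat.find (hex c hc) else 0
  have ha : ∀ c, c ≤ R → u (a c) = c * li ∧ a c ≤ h := by
    intro c hc
    have e : a c = Nat.find (hex c hc) := dif_pos hc
    have h1 := Nat.find_spec (hex c hc)
    rw [← e] at h1
    have h2 : a c ≤ h := by
      rw [e]
      exact Nat.find_min' (hex c hc) (by rw [hh]; exact Nat.mul_le_mul_right _ hc)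
    refine ⟨?_, h2⟩
    rcases Nat.eq_zero_or_pos (a c) with h3 | h3
    · rw [h3] at h1 ⊢
      omega
    · obtain ⟨b, hb⟩ : ∃ b, a c = b + 1 := ⟨a c - 1, by omega⟩
      have h4 : ¬ c * li ≤ u b := by
        apply Nat.find_min (hex c hc)
        rw [← e]
        omega
      have h5 := hstep b (by omega)
      rw [hb] at h1 ⊢
      omega
  have hmono : ∀ c, c + 1 ≤ R → a c ≤ a (c + 1) := by
    intro c hc
    have e : a c = Nat.find (hex c (by omega)) := dif_pos (by omega)
    rw [e]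
    apply Nat.find_min'
    rw [(ha (c + 1) hc).1]
    exact Nat.mul_le_mul_right _ (Nat.le_succ c)
  have hgrow : ∀ c, c ≤ R → c * (Q * li + 1) ≤ a c := by
    intro c
    induction c with
    | zero => intro _; simp
    | succ c ih =>
      intro hc
      have h1 := ih (by omega)
      have h2 := hmono c hc
      have h3 := ha c (by omega)
      have h4 := ha (c + 1) hc
      by_contra h5
      push Not at h5
      refine hcon (a c) (a (c + 1)) c h2 h4.2 ?_ h3.1 h4.1
      have : (c + 1) * (Q * li + 1) = c * (Q * li + 1) + (Q * li + 1) := by ring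
      omega
  have h1 := hgrow R le_rfl
  have h2 := (ha R le_rfl).2
  have h3 : R * (Q * li + 1) = Q * (R * li) + R := by ring
  omega

lemma floor_eq_of_parity (a b : ℤ) (s : ℕ) (h : |a - b| ≤ s)
    (hp : (a / (s + 1)) % 2 = (b / (s + 1)) % 2) : a / (s + 1) = b / (s + 1) := by
  have hs : (0 : ℤ) < s + 1 := by positivity
  rw [abs_le] at h
  have h1 : a / (s + 1) ≤ b / (s + 1) + 1 := by
    have : a ≤ b + (s + 1) * 1 := by linarith [h.2]
    calc a / (s + 1) ≤ (b + (s + 1) * 1) / (s + 1) := Int.ediv_le_ediv hs this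
      _ = b / (s + 1) + 1 := by rw [Int.add_mul_ediv_left _ _ (ne_of_gt hs)]
  have h2 : b / (s + 1) ≤ a / (s + 1) + 1 := by
    have : b ≤ a + (s + 1) * 1 := by linarith [h.1]
    calc b / (s + 1) ≤ (a + (s + 1) * 1) / (s + 1) := Int.ediv_le_ediv hs this
      _ = a / (s + 1) + 1 := by rw [Int.add_mul_ediv_left _ _ (ne_of_gt hs)]
  omega

lemma diff_of_floor_eq (a b : ℤ) (s : ℕ) (h : a / (s + 1) = b / (s + 1)) : |a - b| ≤ s := by
  have hs : (0 : ℤ) < s + 1 := by positivity
  have h1 := Int.emod_add_mul_ediv a (s + 1)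
  have h2 := Int.emod_add_mul_ediv b (s + 1)
  have h3 := Int.emod_nonneg a (ne_of_gt hs)
  have h4 := Int.emod_nonneg b (ne_of_gt hs)
  have h5 := Int.emod_lt_of_pos a hs
  have h6 := Int.emod_lt_of_pos b hs
  rw [h] at h1
  rw [abs_le]
  constructor <;> linarith

lemma walk_dist (v : ℕ → ℤ) (p q h : ℕ) (hpq : p ≤ q) (hq : q ≤ h)
    (hstep : ∀ j < h, |v (j + 1) - v j| ≤ 1) : |v p - v q| ≤ (q - p : ℕ) := by
  obtain ⟨d, rfl⟩ := Nat.exists_eq_add_of_le hpq
  clear hpq
  induction d with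
  | zero => simp
  | succ d ih =>
    have h1 := ih (by omega)
    have h2 := hstep (p + d) (by omega)
    rw [abs_le] at *
    rw [← add_assoc]
    have e1 : p + d - p = d := by omega
    have e2 : p + d + 1 - p = d + 1 := by omega
    rw [e1] at h1
    rw [e2]
    push_cast
    constructor <;> linarith [h1.1, h1.2, h2.1, h2.2]

/-- the conclusion used for hosts -/
theorem cross_parity (Q k : ℕ) (l : Fin k → ℕ) (L : ℕ) (F : (Fin k → ℕ) → ℤ) (s : ℕ)
    (hL : 0 < L) (hl : ∀ i, 0 < l i ∧ l i ∣ L)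
    (hs : ∀ τ τ' : Fin k → ℕ, (∀ i, |(τ i : ℤ) - τ' i| ≤ 1) → |F τ - F τ'| ≤ s)
    (htype : ∀ (i : Fin k) (c : ℕ) (τ τ' : Fin k → ℕ), τ i = c * l i → τ' i = (c + 1) * l i →
      (∀ j, |(τ j : ℤ) - τ' j| ≤ Q * l i) → (s : ℤ) + 1 ≤ |F τ - F τ'|)
    (τ : ℕ → Fin k → ℕ) (h r : ℕ) (hr : 0 < r) (i : Fin k) (h0 : τ 0 i = 0)
    (hh : τ h i = L * r) (hstep : ∀ j < h, ∀ i, |(τ (j + 1) i : ℤ) - τ j i| ≤ 1)
    (hlen : h ≤ Q * (L * r)) :
    ∃ p ≤ h, ∃ q ≤ h, (F (τ p) / (s + 1)) % 2 ≠ (F (τ q) / (s + 1)) % 2 := by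
  by_contra hcon
  push Not at hcon
  obtain ⟨hli, w, hw⟩ := hl i
  have hwr : L * r = (w * r) * l i := by rw [hw]; ring
  have hwpos : 0 < w * r := by
    rcases Nat.eq_zero_or_pos w with h1 | h1
    · rw [h1] at hw
      omega
    · positivity
  obtain ⟨p, q, c, hpq, hqh, hd, hp, hq⟩ := fast_cross (fun j => τ j i) h (l i) (w * r) Q hli hwpos
    h0 (by rw [← hwr]; exact hh) (fun j hj => by
      have := hstep j hj i
      rw [abs_le] at this
      have h2 := this.2
      omega) (by rw [← hwr]; exact hlen)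
  have hfl : ∀ d, p + d ≤ q → F (τ (p + d)) / (s + 1) = F (τ p) / (s + 1) := by
    intro d
    induction d with
    | zero => intro _; rfl
    | succ d ih =>
      intro hd'
      rw [← ih (by omega)]
      refine floor_eq_of_parity _ _ s (hs _ _ (hstep (p + d) (by omega))) ?_
      exact hcon _ (by omega) _ (by omega)
  have h1 := hfl (q - p) (by omega)
  rw [show p + (q - p) = q by omega] at h1
  have h2 := diff_of_floor_eq _ _ s h1
  have h3 := htype i c (τ p) (τ q) hp hq (fun j => by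
    have h4 := walk_dist (fun t => (τ t j : ℤ)) p q h hpq hqh (fun t ht => hstep t ht j)
    refine h4.trans ?_
    exact_mod_cast hd)
  rw [abs_sub_comm] at h3
  linarith

end Pool.Agent.Helper45.DR
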