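import Pool.Agent.Helper45.DR.Host

set_option autoImplicit false
set_option linter.unusedSimpArgs false

/-!
The target graphs: a binary tree with a tag at every leaf and a triangle at the root
(MP_74ecc6_co).
-/

namespace Pool.Agent.Helper45.DR

/-- the vertices: the nodes of a heap, the tag vertices, two more vertices of the triangle -/
abbrev V (m h : ℕ) := Fin (2 ^ (h + 1)) ⊕ (Fin (2 ^ h) × Fin (2 * m)) ⊕ Fin 2

/-- the oriented edges -/
def rel (m h : ℕ) (π : Fin (2 ^ h) → Equiv.Perm (Fin m)) : V m h → V m h → Prop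
  | .inl i, .inl j => (i : ℕ) / 2 = j
  | .inl i, .inr (.inl p) => (i : ℕ) = 2 ^ h + p.1 ∧ (p.2 : ℕ) = 0
  | .inl i, .inr (.inr _) => (i : ℕ) = 0
  | .inr (.inl p), .inr (.inl q) => p.1 = q.1 ∧
      ((q.2 : ℕ) = p.2 + 1 ∨ ∃ j : Fin m, (p.2 : ℕ) = j ∧ (q.2 : ℕ) = m + π p.1 j)
  | .inr (.inr _), .inr (.inr _) => True
  | .inr (.inl _), .inl _ => False
  | .inr (.inr _), .inl _ => False
  | .inr (.inl _), .inr (.inr _) => False
  | .inr (.inr _), .inr (.inl _) => False

/-- the graph -/
def HG (m h : ℕ) (π : Fin (2 ^ h) → Equiv.Perm (Fin m)) : SimpleGraph (V m h) :=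
  SimpleGraph.fromRel (rel m h π)

lemma HG_adj (m h : ℕ) (π : Fin (2 ^ h) → Equiv.Perm (Fin m)) (v w : V m h) :
    (HG m h π).Adj v w ↔ v ≠ w ∧ (rel m h π v w ∨ rel m h π w v) := by
  unfold HG
  rw [SimpleGraph.fromRel_adj]

/-- numerical codes of the vertices -/
def vcode (m h : ℕ) : V m h → ℕ × ℕ × ℕ
  | .inl i => (0, i, 0)
  | .inr (.inl p) => (1, p.1, p.2)
  | .inr (.inr z) => (2, z, 0)

lemma vcode_inj (m h : ℕ) : Function.Injective (vcode m h) := by
  intro v w hvw
  rcases v with i | p | z <;> rcases w with j | q | y <;>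
    simp only [vcode, Prod.mk.injEq] at hvw
  · have : i = j := Fin.ext hvw.2.1
    rw [this]
  · omega
  · omega
  · omega
  · have : p = q := Prod.ext (Fin.ext hvw.2.1) (Fin.ext hvw.2.2)
    rw [this]
  · omega
  · omega
  · omega
  · have : z = y := Fin.ext hvw.2.1
    rw [this]

lemma ncard_le_three {A B : Type*} (f : A → B) (hf : Function.Injective f) (S : Set A)
    (x y z : B) (h : ∀ w ∈ S, f w = x ∨ f w = y ∨ f w = z) : S.ncard ≤ 3 := by
  classical
  have h1 : (f '' S).ncard = S.ncard := Set.ncard_image_of_injective S hf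
  rw [← h1]
  have h2 : f '' S ⊆ (({x, y, z} : Finset B) : Set B) := by
    rintro _ ⟨w, hw, rfl⟩
    have := h w hw
    simp only [Finset.coe_insert, Finset.coe_singleton, Set.mem_insert_iff,
      Set.mem_singleton_iff]
    exact this
  calc (f '' S).ncard ≤ (({x, y, z} : Finset B) : Set B).ncard :=
        Set.ncard_le_ncard h2 (Finset.finite_toSet _)
    _ = ({x, y, z} : Finset B).card := Set.ncard_coe_finset _
    _ ≤ 3 := Finset.card_le_three

theorem HG_deg (m h : ℕ) (π : Fin (2 ^ h) → Equiv.Perm (Fin m)) (v : V m h) :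
    ((HG m h π).neighborSet v).ncard ≤ 3 := by
  classical
  rcases v with i | p | z
  · by_cases hi0 : (i : ℕ) = 0
    · refine ncard_le_three (vcode m h) (vcode_inj m h) _ (0, 1, 0) (2, 0, 0) (2, 1, 0) ?_
      intro w hw
      rw [SimpleGraph.mem_neighborSet, HG_adj] at hw
      obtain ⟨hne, hr⟩ := hw
      rcases w with j | q | y
      · simp only [rel, false_or, or_false] at hr
        have hij : (i : ℕ) ≠ j := fun h => hne (congrArg Sum.inl (Fin.ext h))
        simp only [vcode, Prod.mk.injEq, true_and, and_true, false_and, and_false, false_or, or_false,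
          OfNat.ofNat_ne_zero, OfNat.ofNat_ne_one, zero_ne_one, one_ne_zero]
        omega
      · simp only [rel, false_or, or_false] at hr
        have : 0 < 2 ^ h := by positivity
        omega
      · simp only [vcode, Prod.mk.injEq, true_and, and_true, false_and, and_false, false_or, or_false,
          OfNat.ofNat_ne_zero, OfNat.ofNat_ne_one, zero_ne_one, one_ne_zero]
        omega
    · by_cases hi1 : (i : ℕ) < 2 ^ h
      · refine ncard_le_three (vcode m h) (vcode_inj m h) _ (0, i / 2, 0) (0, 2 * i, 0)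
          (0, 2 * i + 1, 0) ?_
        intro w hw
        rw [SimpleGraph.mem_neighborSet, HG_adj] at hw
        obtain ⟨hne, hr⟩ := hw
        rcases w with j | q | y
        · simp only [rel, false_or, or_false] at hr
          simp only [vcode, Prod.mk.injEq, true_and, and_true, false_and, and_false, false_or, or_false,
          OfNat.ofNat_ne_zero, OfNat.ofNat_ne_one, zero_ne_one, one_ne_zero]
          omega
        · simp only [rel, false_or, or_false] at hr
          omega
        · simp only [rel, false_or, or_false] at hr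
          omega
      · refine ncard_le_three (vcode m h) (vcode_inj m h) _ (0, i / 2, 0) (1, i - 2 ^ h, 0)
          (1, i - 2 ^ h, 0) ?_
        intro w hw
        rw [SimpleGraph.mem_neighborSet, HG_adj] at hw
        obtain ⟨hne, hr⟩ := hw
        rcases w with j | q | y
        · simp only [rel, false_or, or_false] at hr
          simp only [vcode, Prod.mk.injEq, true_and, and_true, false_and, and_false, false_or, or_false,
          OfNat.ofNat_ne_zero, OfNat.ofNat_ne_one, zero_ne_one, one_ne_zero]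
          have hj := j.2
          have e : 2 ^ (h + 1) = 2 * 2 ^ h := by ring
          omega
        · simp only [rel, false_or, or_false] at hr
          simp only [vcode, Prod.mk.injEq, true_and, and_true, false_and, and_false, false_or, or_false,
          OfNat.ofNat_ne_zero, OfNat.ofNat_ne_one, zero_ne_one, one_ne_zero]
          omega
        · simp only [rel, false_or, or_false] at hr
          omega
  · obtain ⟨a, s⟩ := p
    refine ncard_le_three (vcode m h) (vcode_inj m h) _
      (if (s : ℕ) = 0 then (0, 2 ^ h + a, 0) else (1, (a : ℕ), (s : ℕ) - 1))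
      (1, (a : ℕ), (s : ℕ) + 1)
      (if hs : (s : ℕ) < m then (1, (a : ℕ), m + (π a ⟨s, hs⟩ : ℕ))
        else if hs' : (s : ℕ) - m < m then (1, (a : ℕ), ((π a).symm ⟨s - m, hs'⟩ : ℕ))
        else (0, 0, 0)) ?_
    intro w hw
    rw [SimpleGraph.mem_neighborSet, HG_adj] at hw
    obtain ⟨hne, hr⟩ := hw
    rcases w with j | ⟨b, t⟩ | y
    · simp only [rel, false_or] at hr
      left
      rw [if_pos hr.2]
      simp only [vcode, Prod.mk.injEq, true_and, and_true, false_and, and_false, false_or, or_false,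
          OfNat.ofNat_ne_zero, OfNat.ofNat_ne_one, zero_ne_one, one_ne_zero]
      omega
    · simp only [rel, false_or, or_false] at hr
      have hs2 := s.2
      have ht2 := t.2
      rcases hr with ⟨hab, h1 | ⟨j, hj1, hj2⟩⟩ | ⟨hab, h1 | ⟨j, hj1, hj2⟩⟩
      · right; left
        simp only [vcode, Prod.mk.injEq, true_and, and_true, false_and, and_false, false_or, or_false,
          OfNat.ofNat_ne_zero, OfNat.ofNat_ne_one, zero_ne_one, one_ne_zero]
        exact ⟨by rw [hab], h1⟩
      · right; right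
        have hsm : (s : ℕ) < m := by rw [hj1]; exact j.2
        have e : (⟨s, hsm⟩ : Fin m) = j := Fin.ext hj1
        rw [dif_pos hsm, e]
        simp only [vcode, Prod.mk.injEq, true_and, and_true, false_and, and_false, false_or, or_false,
          OfNat.ofNat_ne_zero, OfNat.ofNat_ne_one, zero_ne_one, one_ne_zero]
        exact ⟨by rw [hab], hj2⟩
      · left
        rw [if_neg (by omega)]
        simp only [vcode, Prod.mk.injEq, true_and, and_true, false_and, and_false, false_or, or_false,
          OfNat.ofNat_ne_zero, OfNat.ofNat_ne_one, zero_ne_one, one_ne_zero]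
        exact ⟨by rw [hab], by omega⟩
      · right; right
        subst hab
        have hsm : ¬ (s : ℕ) < m := by omega
        have hsm' : (s : ℕ) - m < m := by omega
        have e : (⟨s - m, hsm'⟩ : Fin m) = π b j := Fin.ext (by simp only; omega)
        rw [dif_neg hsm, dif_pos hsm', e, Equiv.symm_apply_apply]
        simp only [vcode, Prod.mk.injEq, true_and, and_true, false_and, and_false, false_or, or_false,
          OfNat.ofNat_ne_zero, OfNat.ofNat_ne_one, zero_ne_one, one_ne_zero]
        exact hj1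
    · simp only [rel, or_self] at hr
  · refine ncard_le_three (vcode m h) (vcode_inj m h) _ (0, 0, 0) (2, 0, 0) (2, 1, 0) ?_
    intro w hw
    rw [SimpleGraph.mem_neighborSet, HG_adj] at hw
    obtain ⟨hne, hr⟩ := hw
    rcases w with j | q | y
    · simp only [rel, false_or] at hr
      simp only [vcode, Prod.mk.injEq, true_and, and_true, false_and, and_false, false_or, or_false,
          OfNat.ofNat_ne_zero, OfNat.ofNat_ne_one, zero_ne_one, one_ne_zero]
      omega
    · simp only [rel, or_self] at hr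
    · simp only [vcode, Prod.mk.injEq, true_and, and_true, false_and, and_false, false_or, or_false,
          OfNat.ofNat_ne_zero, OfNat.ofNat_ne_one, zero_ne_one, one_ne_zero]
      omega

/-- the leaf `a` -/
def leaf (h : ℕ) (a : Fin (2 ^ h)) : ℕ := 2 ^ h + a

lemma leaf_lt (h : ℕ) (a : Fin (2 ^ h)) (j : ℕ) : leaf h a / 2 ^ j < 2 ^ (h + 1) := by
  have h1 : leaf h a / 2 ^ j ≤ leaf h a := Nat.div_le_self _ _
  have h2 : leaf h a = 2 ^ h + a := rfl
  have h3 := a.2
  have e : 2 ^ (h + 1) = 2 * 2 ^ h := by ring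
  omega

/-- the path from the leaf `a` to the root -/
def pth (m h : ℕ) (a : Fin (2 ^ h)) (j : ℕ) : V m h := .inl ⟨leaf h a / 2 ^ j, leaf_lt h a j⟩

lemma leaf_div_pos (h : ℕ) (a : Fin (2 ^ h)) (j : ℕ) (hj : j ≤ h) : 0 < leaf h a / 2 ^ j := by
  apply Nat.div_pos _ (by positivity)
  have h1 : 2 ^ j ≤ 2 ^ h := Nat.pow_le_pow_right (by norm_num) hj
  have h2 : leaf h a = 2 ^ h + a := rfl
  omega

lemma pth_top (m h : ℕ) (a b : Fin (2 ^ h)) : pth m h a h = pth m h b h := by
  have key : ∀ a : Fin (2 ^ h), leaf h a / 2 ^ h = 1 := by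
    intro a
    have h2 : leaf h a = 2 ^ h + a := rfl
    have h3 := a.2
    rw [h2, Nat.div_eq_iff (by positivity)]
    omega
  unfold pth
  congr 2
  rw [key a, key b]

lemma pth_adj (m h : ℕ) (π : Fin (2 ^ h) → Equiv.Perm (Fin m)) (a : Fin (2 ^ h)) (j : ℕ)
    (hj : j < h) : (HG m h π).Adj (pth m h a j) (pth m h a (j + 1)) := by
  rw [HG_adj]
  have h1 := leaf_div_pos h a j hj.le
  have e : leaf h a / 2 ^ (j + 1) = leaf h a / 2 ^ j / 2 := by
    rw [pow_succ, Nat.div_div_eq_div_mul]
  refine ⟨?_, Or.inl ?_⟩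
  · intro h2
    have h3 := Sum.inl.inj h2
    have h4 : leaf h a / 2 ^ j = leaf h a / 2 ^ (j + 1) := congrArg Fin.val h3
    omega
  · change leaf h a / 2 ^ j / 2 = leaf h a / 2 ^ (j + 1)
    rw [e]

lemma tri (m h : ℕ) (π : Fin (2 ^ h) → Equiv.Perm (Fin m)) : ∃ u v w : V m h,
    (HG m h π).Adj u v ∧ (HG m h π).Adj u w ∧ (HG m h π).Adj v w := by
  have h0 : 0 < 2 ^ (h + 1) := by positivity
  refine ⟨.inl ⟨0, h0⟩, .inr (.inr 0), .inr (.inr 1), ?_, ?_, ?_⟩
  · rw [HG_adj]
    exact ⟨by simp, Or.inl rfl⟩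
  · rw [HG_adj]
    exact ⟨by simp, Or.inl rfl⟩
  · rw [HG_adj]
    exact ⟨by simp, Or.inl trivial⟩

lemma tagAt_leaf {W : Type*} (G : SimpleGraph W) (m h : ℕ) (hm : 0 < m)
    (π : Fin (2 ^ h) → Equiv.Perm (Fin m)) (f : V m h → W) (hf : Function.Injective f)
    (hadj : ∀ u v, (HG m h π).Adj u v → G.Adj (f u) (f v)) (a : Fin (2 ^ h)) :
    TagAt G (π a) (f (pth m h a 0)) := by
  classical
  let tg : ℕ → V m h := fun t => if ht : t < 2 * m then .inr (.inl (a, ⟨t, ht⟩)) else pth m h a 0
  have htg : ∀ t (ht : t < 2 * m), tg t = .inr (.inl (a, ⟨t, ht⟩)) := fun t ht => dif_pos ht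
  refine ⟨fun t => f (tg t), ?_, ?_, ?_, ?_⟩
  · apply hadj
    rw [htg 0 (by omega), HG_adj]
    refine ⟨by simp [pth], Or.inl ⟨?_, rfl⟩⟩
    change leaf h a / 2 ^ 0 = 2 ^ h + a
    rw [pow_zero, Nat.div_one]
    rfl
  · intro t ht
    apply hadj
    rw [htg t (by omega), htg (t + 1) ht, HG_adj]
    refine ⟨?_, Or.inl ⟨rfl, Or.inl rfl⟩⟩
    intro h1
    simp at h1
  · intro t ht t' ht' h1
    have h2 := hf h1
    rw [htg t ht, htg t' ht'] at h2
    simpa using h2
  · intro j
    have hj := j.2
    have hpj := (π a j).2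
    apply hadj
    rw [htg j (by omega), htg (m + π a j) (by omega), HG_adj]
    refine ⟨?_, Or.inl ⟨rfl, Or.inr ⟨j, rfl, rfl⟩⟩⟩
    intro h1
    simp at h1
    omega

end Pool.Agent.Helper45.DR
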