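import Mathlib

set_option autoImplicit false

/-!
Bounded degree hosts: truncated distances, scarcity of roles (MP_74ecc6_co).
-/

namespace Pool.Agent.Helper45.DR

variable {W : Type*} (G : SimpleGraph W)

lemma td_ex (X : Set W) (T : ℕ) (x : W) :
    ∃ j, j = T ∨ ∃ y ∈ X, ∃ p : G.Walk x y, p.length = j := ⟨T, Or.inl rfl⟩

open Classical in
/-- distance to `X`, truncated at `T` -/
noncomputable def td (X : Set W) (T : ℕ) (x : W) : ℕ := Nat.find (td_ex G X T x)

lemma td_le (X : Set W) (T : ℕ) (x : W) : td G X T x ≤ T := by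
  classical
  exact Nat.find_min' _ (Or.inl rfl)

lemma td_zero (X : Set W) (T : ℕ) (x : W) (hx : x ∈ X) : td G X T x = 0 := by
  classical
  have : td G X T x ≤ 0 := Nat.find_min' _ (Or.inr ⟨x, hx, SimpleGraph.Walk.nil, rfl⟩)
  omega

lemma td_lt (X : Set W) (T : ℕ) (x : W) (h : td G X T x < T) :
    ∃ y ∈ X, ∃ p : G.Walk x y, p.length < T := by
  classical
  rcases Nat.find_spec (td_ex G X T x) with h1 | ⟨y, hy, p, hp⟩
  · exact absurd h1 (ne_of_lt h)
  · exact ⟨y, hy, p, by rw [hp]; exact h⟩

lemma td_step (X : Set W) (T : ℕ) (x x' : W) (h : G.Adj x x') :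
    td G X T x ≤ td G X T x' + 1 := by
  classical
  rcases Nat.find_spec (td_ex G X T x') with h1 | ⟨y, hy, p, hp⟩
  · have h2 : td G X T x' = T := h1
    have := td_le G X T x
    omega
  · refine Nat.find_min' _ (Or.inr ⟨y, hy, SimpleGraph.Walk.cons h p, ?_⟩)
    rw [SimpleGraph.Walk.length_cons, hp]
    rfl

lemma td_lip (X : Set W) (T : ℕ) (x x' : W) (h : G.Adj x x') :
    |(td G X T x : ℤ) - td G X T x'| ≤ 1 := by
  have h1 := td_step G X T x x' h
  have h2 := td_step G X T x' x h.symm
  rw [abs_le]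
  constructor <;> omega

/-- an enumeration of the closed neighbourhoods -/
lemma exists_stp (D : ℕ)
    (hD : ∀ x, (G.neighborSet x).Finite ∧ (G.neighborSet x).ncard ≤ D) :
    ∃ stp : W → Fin (D + 1) → W, ∀ x y, (y = x ∨ G.Adj x y) → ∃ c, stp x c = y := by
  classical
  have h : ∀ x : W, ∃ f : Fin (D + 1) → W, ∀ y, (y = x ∨ G.Adj x y) → ∃ c, f c = y := by
    intro x
    let S : Set W := insert x (G.neighborSet x)
    have hS : S.Finite := (hD x).1.insert _
    have hcard : Nat.card S ≤ D + 1 := by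
      rw [Nat.card_coe_set_eq]
      exact (Set.ncard_insert_le _ _).trans (Nat.add_le_add_right (hD x).2 1)
    have : Finite S := hS.to_subtype
    let e := Finite.equivFin S
    refine ⟨fun c => if h : (c : ℕ) < Nat.card S then (e.symm ⟨c, h⟩ : W) else x, ?_⟩
    intro y hy
    have hyS : y ∈ S := by
      rcases hy with rfl | hy
      · exact Set.mem_insert _ _
      · exact Set.mem_insert_of_mem _ hy
    let c := e ⟨y, hyS⟩
    refine ⟨⟨c, lt_of_lt_of_le c.2 hcard⟩, ?_⟩
    have e1 : (if h : (c : ℕ) < Nat.card S then (e.symm ⟨c, h⟩ : W) else x) = y := by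
      rw [dif_pos c.2]
      change ((e.symm c : S) : W) = y
      rw [Equiv.symm_apply_apply]
    exact e1
  choose stp hstp using h
  exact ⟨stp, hstp⟩

/-- the graph `G` contains the tag of `π` hanging at the vertex `y` -/
def TagAt {m : ℕ} (π : Equiv.Perm (Fin m)) (y : W) : Prop :=
  ∃ g : ℕ → W, G.Adj y (g 0) ∧ (∀ t, t + 1 < 2 * m → G.Adj (g t) (g (t + 1))) ∧
    (∀ t < 2 * m, ∀ t' < 2 * m, g t = g t' → t = t') ∧
    ∀ j : Fin m, G.Adj (g j) (g (m + π j))

/-- the walk encoded by `c` -/
def run {A : Type*} (stp : W → A → W) (c : ℕ → A) (x : W) : ℕ → W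
  | 0 => x
  | n + 1 => stp (run stp c x n) (c n)

lemma run_eq {A : Type*} (stp : W → A → W) (c : ℕ → A) (z : ℕ → W) (N : ℕ)
    (h : ∀ j < N, stp (z j) (c j) = z (j + 1)) : ∀ j ≤ N, run stp c (z 0) j = z j := by
  intro j
  induction j with
  | zero => intro _; rfl
  | succ j ih =>
    intro hj
    change stp (run stp c (z 0) j) (c j) = z (j + 1)
    rw [ih (by omega), h j (by omega)]

lemma run_congr {A : Type*} (stp : W → A → W) (c c' : ℕ → A) (x : W) (N : ℕ)
    (h : ∀ j < N, c j = c' j) : ∀ j ≤ N, run stp c x j = run stp c' x j := by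
  intro j
  induction j with
  | zero => intro _; rfl
  | succ j ih =>
    intro hj
    change stp (run stp c x j) (c j) = stp (run stp c' x j) (c' j)
    rw [ih (by omega), h j (by omega)]

/-- the code `c` describes a short walk from `x` to a vertex where the tag of `π` hangs -/
def Code {A : Type*} (stp : W → A → W) {m : ℕ} (T : ℕ) (x : W) (π : Equiv.Perm (Fin m))
    (c : ℕ → A) : Prop :=
  (∀ t < 2 * m, ∀ t' < 2 * m, run stp c x (T + 1 + t) = run stp c x (T + 1 + t') → t = t') ∧
    ∀ j : Fin m, stp (run stp c x (T + 1 + j)) (c (T + 2 * m + j)) =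
      run stp c x (T + 1 + (m + π j))

lemma code_unique {A : Type*} (stp : W → A → W) {m : ℕ} (T : ℕ) (x : W)
    (π π' : Equiv.Perm (Fin m)) (c c' : ℕ → A) (hcc : ∀ j < T + 3 * m, c j = c' j)
    (h : Code stp T x π c) (h' : Code stp T x π' c') : π = π' := by
  apply Equiv.ext
  intro j
  have e := run_congr stp c c' x (T + 2 * m) (fun j hj => hcc j (by omega))
  have h1 := h.2 j
  have h2 := h'.2 j
  have hj := j.2
  have hpj := (π j).2
  have hpj' := (π' j).2
  rw [← e (T + 1 + j) (by omega), ← hcc (T + 2 * m + j) (by omega), h1,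
    ← e (T + 1 + (m + π' j)) (by omega)] at h2
  have h3 := h.1 _ (by omega) _ (by omega) h2
  exact Fin.ext (by omega)

lemma code_exists {A : Type*} [Inhabited A] (stp : W → A → W)
    (hstp : ∀ x y, (y = x ∨ G.Adj x y) → ∃ c, stp x c = y) {m : ℕ} (T : ℕ) (x y : W)
    (p : G.Walk x y) (hp : p.length ≤ T) (π : Equiv.Perm (Fin m)) (hy : TagAt G π y) :
    ∃ c : ℕ → A, Code stp T x π c := by
  classical
  obtain ⟨g, hg0, hg1, hinj, hg2⟩ := hy
  let z : ℕ → W := fun j => if j ≤ T then p.getVert j else g (j - (T + 1))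
  have hz0 : z 0 = x := by simp [z]
  have hzT : z T = y := by
    simp only [z, le_refl, if_true]
    exact p.getVert_of_length_le hp
  have hzg : ∀ t, z (T + 1 + t) = g t := by
    intro t
    have : ¬ (T + 1 + t ≤ T) := by omega
    simp only [z, this, if_false]
    congr 1
    omega
  have hstep : ∀ j < T + 2 * m, ∃ a, stp (z j) a = z (j + 1) := by
    intro j hj
    apply hstp
    rcases lt_trichotomy j T with h1 | h1 | h1
    · have e1 : z j = p.getVert j := by simp [z, h1.le]
      have e2 : z (j + 1) = p.getVert (j + 1) := by simp [z, Nat.succ_le_of_lt h1]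
      rw [e1, e2]
      by_cases h2 : j < p.length
      · exact Or.inr (p.adj_getVert_succ h2)
      · left
        rw [p.getVert_of_length_le (by omega), p.getVert_of_length_le (by omega)]
    · right
      rw [h1, hzT]
      have := hzg 0
      rw [add_zero] at this
      rw [this]
      exact hg0
    · right
      obtain ⟨t, rfl⟩ : ∃ t, j = T + 1 + t := ⟨j - (T + 1), by omega⟩
      rw [hzg, show T + 1 + t + 1 = T + 1 + (t + 1) by omega, hzg]
      exact hg1 t (by omega)
  have hlast : ∀ j : Fin m, ∃ a, stp (g j) a = g (m + π j) := fun j => hstp _ _ (Or.inr (hg2 j))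
  choose last hlast using hlast
  let c : ℕ → A := fun j => if h : j < T + 2 * m then (hstep j h).choose
    else if h' : j - (T + 2 * m) < m then last ⟨j - (T + 2 * m), h'⟩ else default
  have hc1 : ∀ j < T + 2 * m, stp (z j) (c j) = z (j + 1) := by
    intro j hj
    simp only [c, hj, dif_pos]
    exact (hstep j hj).choose_spec
  have hrun := run_eq stp c z (T + 2 * m) hc1
  rw [hz0] at hrun
  refine ⟨c, ?_, ?_⟩
  · intro t ht t' ht' h
    rw [hrun _ (by omega), hrun _ (by omega), hzg, hzg] at h
    exact hinj t ht t' ht' h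
  · intro j
    have hj := j.2
    have hpj := (π j).2
    rw [hrun _ (by omega), hrun _ (by omega), hzg, hzg]
    have e : c (T + 2 * m + j) = last j := by
      have h1 : ¬ (T + 2 * m + (j : ℕ) < T + 2 * m) := by omega
      have h2 : T + 2 * m + (j : ℕ) - (T + 2 * m) = j := by omega
      simp only [c, h1, dif_neg, not_false_iff, h2, hj, dif_pos]
    rw [e]
    exact hlast j

/-- walks under local homomorphisms -/
lemma walk_local {W W' : Type*} (G : SimpleGraph W) (G' : SimpleGraph W') (φ : W → W')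
    (B : Set W) (hφ : ∀ u ∈ B, ∀ v ∈ B, G.Adj u v → G'.Adj (φ u) (φ v)) {x z : W}
    (p : G.Walk x z) (hp : ∀ u ∈ p.support, u ∈ B) :
    ∃ q : G'.Walk (φ x) (φ z), q.length = p.length := by
  induction p with
  | nil => exact ⟨SimpleGraph.Walk.nil, rfl⟩
  | @cons u v w huv p ih =>
    obtain ⟨q, hq⟩ := ih fun u hu => hp u (by
      rw [SimpleGraph.Walk.support_cons]
      exact List.mem_cons_of_mem _ hu)
    have hu : u ∈ B := hp u (by
      rw [SimpleGraph.Walk.support_cons]
      exact List.mem_cons_self)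
    have hv : v ∈ B := hp v (by
      rw [SimpleGraph.Walk.support_cons]
      exact List.mem_cons_of_mem _ p.start_mem_support)
    refine ⟨SimpleGraph.Walk.cons (hφ u hu v hv huv) q, ?_⟩
    rw [SimpleGraph.Walk.length_cons, SimpleGraph.Walk.length_cons, hq]

/-- tags near `x` are seen in any graph into which the ball around `x` embeds -/
lemma tag_local {W W' : Type*} (G : SimpleGraph W) (G' : SimpleGraph W') (φ : W → W') (x : W)
    (ρ T m : ℕ) (hρ : T + 2 * m ≤ ρ)
    (hinj : Set.InjOn φ {u | G.edist x u ≤ ρ})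
    (hφ : ∀ u v, G.edist x u ≤ ρ → G.edist x v ≤ ρ → G.Adj u v → G'.Adj (φ u) (φ v))
    (π : Equiv.Perm (Fin m)) (z : W) (hz : TagAt G π z) (p : G.Walk x z) (hp : p.length < T) :
    TagAt G' π (φ z) ∧ ∃ q : G'.Walk (φ x) (φ z), q.length < T := by
  classical
  have hwalk : ∀ u : W, (∃ q : G.Walk x u, q.length ≤ ρ) → G.edist x u ≤ ρ := by
    rintro u ⟨q, hq⟩
    exact (SimpleGraph.edist_le q).trans (by exact_mod_cast hq)
  constructor
  · obtain ⟨g, h0, h1, h2, h3⟩ := hz
    have hzB : G.edist x z ≤ ρ := hwalk z ⟨p, by omega⟩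
    have hg : ∀ t < 2 * m, ∃ q : G.Walk x (g t), q.length = p.length + 1 + t := by
      intro t
      induction t with
      | zero =>
        intro _
        exact ⟨p.concat h0, by rw [SimpleGraph.Walk.length_concat]⟩
      | succ t ih =>
        intro ht
        obtain ⟨q, hq⟩ := ih (by omega)
        exact ⟨q.concat (h1 t ht), by rw [SimpleGraph.Walk.length_concat, hq]; omega⟩
    have hgB : ∀ t < 2 * m, G.edist x (g t) ≤ ρ := by
      intro t ht
      obtain ⟨q, hq⟩ := hg t ht
      exact hwalk _ ⟨q, by omega⟩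
    by_cases hm : 0 < m
    · refine ⟨fun t => φ (g t), hφ _ _ hzB (hgB 0 (by omega)) h0,
        fun t ht => hφ _ _ (hgB t (by omega)) (hgB (t + 1) ht) (h1 t ht), ?_, ?_⟩
      · intro t ht t' ht' h
        exact h2 t ht t' ht' (hinj (hgB t ht) (hgB t' ht') h)
      · intro j
        have hj := j.2
        have hpj := (π j).2
        exact hφ _ _ (hgB _ (by omega)) (hgB _ (by omega)) (h3 j)
    · have hm0 : m = 0 := by omega
      subst hm0
      have hB0 : G.edist x (g 0) ≤ ρ := hwalk _ ⟨p.concat h0, by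
        rw [SimpleGraph.Walk.length_concat]
        omega⟩
      exact ⟨fun t => φ (g t), hφ _ _ hzB hB0 h0, fun t ht => absurd ht (by omega),
        fun t ht => absurd ht (by omega), fun j => j.elim0⟩
  · obtain ⟨q, hq⟩ := walk_local G G' φ {u | G.edist x u ≤ ρ}
      (fun u hu v hv huv => hφ u v hu hv huv) p (by
        intro u hu
        refine hwalk u ⟨p.takeUntil u hu, ?_⟩
        have := p.length_takeUntil_le_length hu
        omega)
    exact ⟨q, by rw [hq]; exact hp⟩

/-- scarcity of roles -/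
theorem near_card (D : ℕ)
    (hD : ∀ x, (G.neighborSet x).Finite ∧ (G.neighborSet x).ncard ≤ D) {m : ℕ}
    {Λ : Type*} [Fintype Λ] (π : Λ → Equiv.Perm (Fin m)) (hπ : Function.Injective π) (T : ℕ)
    (x : W) (S : Finset Λ)
    (hS : ∀ a ∈ S, ∃ y, TagAt G (π a) y ∧ ∃ p : G.Walk x y, p.length < T) :
    S.card ≤ (D + 1) ^ (T + 3 * m) := by
  classical
  obtain ⟨stp, hstp⟩ := exists_stp G D hD
  have h : ∀ a : S, ∃ c : ℕ → Fin (D + 1), Code stp T x (π a) c := by
    rintro ⟨a, ha⟩
    obtain ⟨y, hy, p, hp⟩ := hS a ha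
    exact code_exists G stp hstp T x y p hp.le (π a) hy
  choose code hcode using h
  let Φ : S → (Fin (T + 3 * m) → Fin (D + 1)) := fun a j => code a j
  have hΦ : Function.Injective Φ := by
    intro a a' haa
    have h1 : ∀ j < T + 3 * m, code a j = code a' j := fun j hj => congrFun haa ⟨j, hj⟩
    have h2 := code_unique stp T x _ _ _ _ h1 (hcode a) (hcode a')
    exact Subtype.ext (hπ h2)
  have := Fintype.card_le_of_injective Φ hΦ
  rwa [Fintype.card_coe, Fintype.card_fun, Fintype.card_fin, Fintype.card_fin] at this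

/-- a choice of `k` labels that are never simultaneously close -/
theorem choose_labels {W Λ : Type*} [Fintype Λ] [DecidableEq Λ] (R : Finset W)
    (S : W → Finset Λ) (K k : ℕ) (hS : ∀ x, (S x).card ≤ K)
    (hlt : R.card * K ^ k < Fintype.card Λ ^ k) :
    ∃ a : Fin k → Λ, ∀ x ∈ R, ∃ i, a i ∉ S x := by
  classical
  by_contra hcon
  push Not at hcon
  have hsub : (Finset.univ : Finset (Fin k → Λ)) ⊆
      R.biUnion fun x => Fintype.piFinset fun _ => S x := by
    intro a _
    obtain ⟨x, hx, hax⟩ := hcon a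
    rw [Finset.mem_biUnion]
    exact ⟨x, hx, by rw [Fintype.mem_piFinset]; exact hax⟩
  have h1 := Finset.card_le_card hsub
  rw [Finset.card_univ, Fintype.card_fun, Fintype.card_fin] at h1
  have h2 : (R.biUnion fun x => Fintype.piFinset fun _ : Fin k => S x).card ≤ R.card * K ^ k := by
    refine Finset.card_biUnion_le_card_mul _ _ _ ?_
    intro x _
    rw [Fintype.card_piFinset]
    simp only [Finset.prod_const, Finset.card_univ, Fintype.card_fin]
    exact Nat.pow_le_pow_left (hS x) k
  omega

end Pool.Agent.Helper45.DR
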