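import Pool.Agent.Helper45.DR.Graph
import Pool.Agent.Helper45.DR.Cross

set_option autoImplicit false

/-!
No host of bounded degree and polynomial size (MP_74ecc6_co).
-/

namespace Pool.Agent.Helper45.DR

theorem core {W W' : Type*} (G : SimpleGraph W) (G' : SimpleGraph W') (D : ℕ)
    (hD : ∀ x, (G'.neighborSet x).Finite ∧ (G'.neighborSet x).ncard ≤ D) (m h : ℕ) (hm : 0 < m)
    (π : Fin (2 ^ h) → Equiv.Perm (Fin m)) (hπ : Function.Injective π)
    (Q k : ℕ) (l : Fin k → ℕ) (L : ℕ) (F : (Fin k → ℕ) → ℤ) (s : ℕ)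
    (hL : 0 < L) (hl : ∀ i, 0 < l i ∧ l i ∣ L)
    (hs : ∀ τ τ' : Fin k → ℕ, (∀ i, |(τ i : ℤ) - τ' i| ≤ 1) → |F τ - F τ'| ≤ s)
    (htype : ∀ (i : Fin k) (c : ℕ) (τ τ' : Fin k → ℕ), τ i = c * l i → τ' i = (c + 1) * l i →
      (∀ j, |(τ j : ℤ) - τ' j| ≤ Q * l i) → (s : ℤ) + 1 ≤ |F τ - F τ'|)
    (t : ℕ) (ht : 0 < t) (hlen : h ≤ Q * (L * t)) (R : Finset W')
    (ρ : ℕ) (hρ : L * t + 2 * m ≤ ρ)
    (hR : ∀ x, ∃ φ : W → W', φ x ∈ R ∧ Set.InjOn φ {u | G.edist x u ≤ ρ} ∧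
      ∀ u v, G.edist x u ≤ ρ → G.edist x v ≤ ρ → G.Adj u v → G'.Adj (φ u) (φ v))
    (hcard : R.card * ((D + 1) ^ (L * t + 3 * m)) ^ k < (2 ^ h) ^ k) :
    ∃ c : W → W → Bool, (∀ x y, c x y = c y x) ∧ ∀ b, ¬ ∃ f : V m h → W,
      Function.Injective f ∧ ∀ u v, (HG m h π).Adj u v → G.Adj (f u) (f v) ∧ c (f u) (f v) = b := by
  classical
  set T := L * t with hT
  let X : Fin (2 ^ h) → Set W := fun a => {y | TagAt G (π a) y}
  let S : W' → Finset (Fin (2 ^ h)) := fun y =>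
    Finset.univ.filter fun a => ∃ z, TagAt G' (π a) z ∧ ∃ p : G'.Walk y z, p.length < T
  have hS : ∀ y, (S y).card ≤ (D + 1) ^ (T + 3 * m) := by
    intro y
    refine near_card G' D hD π hπ T y (S y) ?_
    intro a ha
    exact (Finset.mem_filter.1 ha).2
  obtain ⟨a, ha⟩ := choose_labels R S _ k hS (by rw [Fintype.card_fin]; exact hcard)
  have hfar : ∀ x, ∃ i, td G (X (a i)) T x = T := by
    intro x
    obtain ⟨φ, hφR, hφi, hφ⟩ := hR x
    obtain ⟨i, hi⟩ := ha _ hφR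
    refine ⟨i, le_antisymm (td_le _ _ _ _) ?_⟩
    by_contra h2
    push Not at h2
    obtain ⟨z, hz, p, hp⟩ := td_lt G (X (a i)) T x h2
    obtain ⟨h3, h4⟩ := tag_local G G' φ x ρ T m hρ hφi hφ (π (a i)) z hz p hp
    exact hi (Finset.mem_filter.2 ⟨Finset.mem_univ _, φ z, h3, h4⟩)
  let τ : W → Fin k → ℕ := fun x i => td G (X (a i)) T x
  let χ : W → Bool := fun x => decide ((F (τ x) / (s + 1)) % 2 = 0)
  refine ⟨fun x y => decide (χ x = χ y), ?_, ?_⟩
  · intro x y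
    simp only [eq_comm]
  · rintro b ⟨f, hf, hfc⟩
    cases b with
    | false =>
      obtain ⟨u, v, w, huv, huw, hvw⟩ := tri m h π
      have h1 := (hfc u v huv).2
      have h2 := (hfc u w huw).2
      have h3 := (hfc v w hvw).2
      rw [decide_eq_false_iff_not] at h1 h2 h3
      revert h1 h2 h3
      generalize χ (f u) = p
      generalize χ (f v) = q
      generalize χ (f w) = r
      revert p q r
      decide
    | true =>
      have hadj : ∀ u v, (HG m h π).Adj u v → G.Adj (f u) (f v) := fun u v huv => (hfc u v huv).1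
      have hχ : ∀ u v, (HG m h π).Adj u v → χ (f u) = χ (f v) := by
        intro u v huv
        have := (hfc u v huv).2
        rwa [decide_eq_true_iff] at this
      have h2h : 0 < 2 ^ h := by positivity
      obtain ⟨i, hi⟩ := hfar (f (pth m h ⟨0, h2h⟩ h))
      have htop : f (pth m h (a i) h) = f (pth m h ⟨0, h2h⟩ h) := by
        rw [pth_top m h (a i) ⟨0, h2h⟩]
      obtain ⟨p, hp, q, hq, hpq⟩ := cross_parity Q k l L F s hL hl hs htype
        (fun j => τ (f (pth m h (a i) j))) h t ht i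
        (td_zero G (X (a i)) T _ (tagAt_leaf G m h hm π f hf hadj (a i)))
        (by change td G (X (a i)) T (f (pth m h (a i) h)) = L * t
            rw [htop, hi])
        (fun j hj i' => by
          have h1 := td_lip G (X (a i')) T _ _ (hadj _ _ (pth_adj m h π (a i) j hj))
          rw [abs_sub_comm] at h1
          exact h1)
        hlen
      have hconst : ∀ j, j ≤ h → χ (f (pth m h (a i) j)) = χ (f (pth m h (a i) 0)) := by
        intro j
        induction j with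
        | zero => intro _; rfl
        | succ j ih =>
          intro hj
          rw [← ih (by omega)]
          exact (hχ _ _ (pth_adj m h π (a i) j (by omega))).symm
      have h1 := (hconst p hp).trans (hconst q hq).symm
      simp only [χ, decide_eq_decide] at h1
      have e1 := Int.emod_two_eq (F (τ (f (pth m h (a i) p))) / (s + 1))
      have e2 := Int.emod_two_eq (F (τ (f (pth m h (a i) q))) / (s + 1))
      apply hpq
      rcases e1 with e1 | e1 <;> rcases e2 with e2 | e2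
      · rw [e1, e2]
      · rw [e1, e2] at h1
        simp at h1
      · rw [e1, e2] at h1
        simp at h1
      · rw [e1, e2]

lemma numer (D b C k h m T : ℕ) (hb : D + 1 ≤ 2 ^ b) (hk : k = 16 * C + 1) (hh : 0 < h)
    (h1 : 2 * (b * (T + 3 * m)) ≤ h) (n : ℕ) (hn : n ≤ (2 ^ (8 * h)) ^ C) :
    n * ((D + 1) ^ (T + 3 * m)) ^ k < (2 ^ h) ^ k := by
  have hK : ((D + 1) ^ (T + 3 * m)) ^ 2 ≤ 2 ^ h := by
    calc ((D + 1) ^ (T + 3 * m)) ^ 2 ≤ ((2 ^ b) ^ (T + 3 * m)) ^ 2 :=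
          Nat.pow_le_pow_left (Nat.pow_le_pow_left hb _) _
      _ = 2 ^ (2 * (b * (T + 3 * m))) := by
          rw [← pow_mul, ← pow_mul]
          congr 1
          ring
      _ ≤ 2 ^ h := Nat.pow_le_pow_right (by norm_num) h1
  have h2 : (n * ((D + 1) ^ (T + 3 * m)) ^ k) ^ 2 < ((2 ^ h) ^ k) ^ 2 := by
    calc (n * ((D + 1) ^ (T + 3 * m)) ^ k) ^ 2
        = n ^ 2 * (((D + 1) ^ (T + 3 * m)) ^ 2) ^ k := by ring
      _ ≤ ((2 ^ (8 * h)) ^ C) ^ 2 * (2 ^ h) ^ k :=
          Nat.mul_le_mul (Nat.pow_le_pow_left hn _) (Nat.pow_le_pow_left hK _)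
      _ = 2 ^ (16 * C * h + h * k) := by
          rw [← pow_mul, ← pow_mul, ← pow_mul, ← pow_add]
          congr 1
          ring
      _ < 2 ^ (2 * (h * k)) := by
          apply Nat.pow_lt_pow_right (by norm_num)
          subst hk
          nlinarith
      _ = ((2 ^ h) ^ k) ^ 2 := by
          rw [← pow_mul, ← pow_mul]
          congr 1
          ring
  exact lt_of_pow_lt_pow_left₀ 2 (by positivity) h2

/-- the sizes -/
def hgt (r : ℕ) : ℕ := r * 2 ^ r

/-- the tag lengths -/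
def tag (r : ℕ) : ℕ := 2 ^ (r + 1)

lemma exists_perm (r : ℕ) : ∃ π : Fin (2 ^ hgt r) → Equiv.Perm (Fin (tag r)),
    Function.Injective π := by
  have h1 : 2 ^ hgt r ≤ (tag r).factorial := by
    have h2 := Nat.factorial_mul_pow_le_factorial (m := 2 ^ r) (n := 2 ^ r)
    have e : 2 ^ r + 2 ^ r = tag r := by
      unfold tag
      ring
    rw [e] at h2
    have h3 : 1 ≤ (2 ^ r).factorial := Nat.factorial_pos _
    calc 2 ^ hgt r = (2 ^ r) ^ (2 ^ r) := by
          unfold hgt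
          rw [← pow_mul]
      _ ≤ (2 ^ r + 1) ^ (2 ^ r) := Nat.pow_le_pow_left (Nat.le_succ _) _
      _ ≤ (2 ^ r).factorial * (2 ^ r + 1) ^ (2 ^ r) := Nat.le_mul_of_pos_left _ h3
      _ ≤ _ := h2
  have h2 : Fintype.card (Fin (2 ^ hgt r)) ≤ Fintype.card (Equiv.Perm (Fin (tag r))) := by
    rw [Fintype.card_fin, Fintype.card_perm, Fintype.card_fin]
    exact h1
  obtain ⟨f⟩ := Function.Embedding.nonempty_of_card_le h2
  exact ⟨f, f.injective⟩

theorem hosts (D C E : ℕ) (hE : 0 < E) : ∃ r₀, ∀ r ≥ r₀,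
    ∀ π : Fin (2 ^ hgt r) → Equiv.Perm (Fin (tag r)), Function.Injective π →
    ∀ (W W' : Type) (G : SimpleGraph W) (G' : SimpleGraph W'),
    (∀ v, (G'.neighborSet v).Finite ∧ (G'.neighborSet v).ncard ≤ D) →
    ∀ R : Finset W', R.card ≤ (2 ^ (8 * hgt r)) ^ C → ∀ ρ : ℕ, hgt r / E ≤ ρ →
    (∀ x, ∃ φ : W → W', φ x ∈ R ∧ Set.InjOn φ {u | G.edist x u ≤ ρ} ∧
      ∀ u v, G.edist x u ≤ ρ → G.edist x v ≤ ρ → G.Adj u v → G'.Adj (φ u) (φ v)) →
    ∃ c : W → W → Bool, (∀ x y, c x y = c y x) ∧ ∀ b, ¬ ∃ f : V (tag r) (hgt r) → W,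
      Function.Injective f ∧
        ∀ u v, (HG (tag r) (hgt r) π).Adj u v → G.Adj (f u) (f v) ∧ c (f u) (f v) = b := by
  have hDb : D + 1 ≤ (D + 1) * E := Nat.le_mul_of_pos_right _ hE
  have hEb : E ≤ (D + 1) * E := Nat.le_mul_of_pos_left _ (Nat.succ_pos _)
  set b := (D + 1) * E with hb
  have hbpos : 0 < b := by omega
  obtain ⟨l, L, F, A, s, hL, hl, -, hs, htype⟩ := crook (8 * b) (16 * C + 1)
  refine ⟨max (24 * b) (4 * b * L), ?_⟩
  intro r hr π hπ W W' G G' hD R hRc ρ hρ hR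
  have hr1 : 24 * b ≤ r := (le_max_left _ _).trans hr
  have hr2 : 4 * b * L ≤ r := (le_max_right _ _).trans hr
  have h2r : 1 ≤ 2 ^ r := Nat.one_le_two_pow
  have hh : hgt r = r * 2 ^ r := rfl
  have hh1 : 4 * b * L ≤ hgt r := by
    rw [hh]
    exact hr2.trans (Nat.le_mul_of_pos_right _ (by omega))
  have hpos : 0 < 4 * b * L := by positivity
  have ht : 0 < hgt r / (4 * b * L) := Nat.div_pos hh1 hpos
  set t := hgt r / (4 * b * L) with htdef
  have hA : t * (4 * b * L) ≤ hgt r := Nat.div_mul_le_self _ _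
  have hB : hgt r < (t + 1) * (4 * b * L) := by
    rw [htdef]
    have := Nat.lt_div_mul_add (a := hgt r) hpos
    rw [add_mul, one_mul]
    exact this
  have h5 : 24 * b * 2 ^ r ≤ hgt r := by
    rw [hh]
    exact Nat.mul_le_mul_right _ hr1
  have h6 : 4 * (b * (L * t + 3 * tag r)) = t * (4 * b * L) + 24 * b * 2 ^ r := by
    unfold tag
    ring
  refine core G G' D hD (tag r) (hgt r) (by unfold tag; positivity) π hπ (8 * b) (16 * C + 1)
    l L F s hL hl hs htype t ht ?_ R ρ ?_ hR ?_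
  · have h3 : (t + 1) * (4 * b * L) ≤ (t + t) * (4 * b * L) :=
      Nat.mul_le_mul_right _ (by omega)
    have h4 : (t + t) * (4 * b * L) = 8 * b * (L * t) := by ring
    omega
  · refine le_trans ?_ hρ
    rw [Nat.le_div_iff_mul_le hE]
    have h7 : (L * t + 2 * tag r) * E ≤ b * (L * t + 3 * tag r) := by
      rw [mul_comm]
      exact Nat.mul_le_mul hEb (by omega)
    omega
  · refine numer D b C _ (hgt r) (tag r) (L * t) (hDb.trans Nat.lt_two_pow_self.le) rfl ?_ ?_ _ hRc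
    · exact lt_of_lt_of_le hpos hh1
    · omega

/-- the number of vertices -/
lemma card_V (m h : ℕ) : Fintype.card (V m h) = 2 ^ (h + 1) + (2 ^ h * (2 * m) + 2) := by
  simp [V]

lemma card_V_lower (r : ℕ) : 2 ^ hgt r ≤ Fintype.card (V (tag r) (hgt r)) := by
  rw [card_V, pow_succ]
  omega

lemma card_V_upper (r : ℕ) (hr : 1 ≤ r) :
    Fintype.card (V (tag (r + 1)) (hgt (r + 1))) ≤ 2 ^ (8 * hgt r) := by
  rw [card_V]
  have h2 : 2 ^ r ≤ r * 2 ^ r := Nat.le_mul_of_pos_left _ hr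
  have h3 : r + 1 ≤ 2 ^ r := Nat.lt_two_pow_self
  have h1 : hgt (r + 1) ≤ 4 * hgt r := by
    unfold hgt
    rw [pow_succ]
    nlinarith
  have h4 : r + 5 ≤ 4 * hgt r := by
    unfold hgt
    nlinarith
  set a := hgt (r + 1) with ha
  have h5 : 2 ^ a * (2 * tag (r + 1)) = 2 ^ (a + r + 3) := by
    unfold tag
    ring
  have h6 : 2 ^ (a + 1) ≤ 2 ^ (a + r + 3) := Nat.pow_le_pow_right (by norm_num) (by omega)
  have h7 : 2 ≤ 2 ^ (a + r + 3) := by
    calc 2 = 2 ^ 1 := by norm_num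
      _ ≤ _ := Nat.pow_le_pow_right (by norm_num) (by omega)
  calc 2 ^ (a + 1) + (2 ^ a * (2 * tag (r + 1)) + 2) ≤ 4 * 2 ^ (a + r + 3) := by omega
    _ = 2 ^ (a + r + 5) := by ring
    _ ≤ 2 ^ (8 * hgt r) := Nat.pow_le_pow_right (by norm_num) (by omega)

/-- the index of the graph used for `n` vertices -/
noncomputable def idx (n : ℕ) : ℕ := Nat.findGreatest
  (fun r => Fintype.card (V (tag r) (hgt r)) ≤ n) n

lemma idx_spec (r₀ n : ℕ) (h : Fintype.card (V (tag r₀) (hgt r₀)) ≤ n) :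
    r₀ ≤ idx n ∧ Fintype.card (V (tag (idx n)) (hgt (idx n))) ≤ n ∧
      n < Fintype.card (V (tag (idx n + 1)) (hgt (idx n + 1))) := by
  have hlow : ∀ r, r < Fintype.card (V (tag r) (hgt r)) := by
    intro r
    have h1 := card_V_lower r
    have h2 : r ≤ hgt r := by
      unfold hgt
      exact Nat.le_mul_of_pos_right _ (by positivity)
    have h3 : hgt r < 2 ^ hgt r := Nat.lt_two_pow_self
    omega
  have hr0n : r₀ ≤ n := (hlow r₀).le.trans h
  have h1 : r₀ ≤ idx n := Nat.le_findGreatest hr0n h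
  have h2 : Fintype.card (V (tag (idx n)) (hgt (idx n))) ≤ n :=
    Nat.findGreatest_spec (P := fun r => Fintype.card (V (tag r) (hgt r)) ≤ n) hr0n h
  refine ⟨h1, h2, ?_⟩
  by_contra h3
  push Not at h3
  have h4 := hlow (idx n + 1)
  have h5 := Nat.findGreatest_is_greatest (P := fun r => Fintype.card (V (tag r) (hgt r)) ≤ n)
    (n := n) (k := idx n + 1) (Nat.lt_succ_self _) (by omega)
  exact h5 h3

lemma exists_H (n : ℕ) : ∃ H : SimpleGraph (Fin n), (∀ v, (H.neighborSet v).ncard ≤ 3) ∧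
    (Fintype.card (V (tag (idx n)) (hgt (idx n))) ≤ n →
      ∃ π : Fin (2 ^ hgt (idx n)) → Equiv.Perm (Fin (tag (idx n))), Function.Injective π ∧
      ∃ g : V (tag (idx n)) (hgt (idx n)) → Fin n, Function.Injective g ∧
        ∀ u v, (HG (tag (idx n)) (hgt (idx n)) π).Adj u v → H.Adj (g u) (g v)) := by
  classical
  by_cases hn : Fintype.card (V (tag (idx n)) (hgt (idx n))) ≤ n
  · obtain ⟨π, hπ⟩ := exists_perm (idx n)
    have h1 : Fintype.card (V (tag (idx n)) (hgt (idx n))) ≤ Fintype.card (Fin n) := by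
      rwa [Fintype.card_fin]
    obtain ⟨g⟩ := Function.Embedding.nonempty_of_card_le h1
    refine ⟨(HG (tag (idx n)) (hgt (idx n)) π).map g, ?_, fun _ => ⟨π, hπ, g, g.injective, ?_⟩⟩
    · intro v
      by_cases hv : v ∈ Set.range g
      · obtain ⟨w, rfl⟩ := hv
        have e : ((HG (tag (idx n)) (hgt (idx n)) π).map g).neighborSet (g w) =
            g '' (HG (tag (idx n)) (hgt (idx n)) π).neighborSet w := by
          ext y
          rw [SimpleGraph.mem_neighborSet, SimpleGraph.map_adj]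
          constructor
          · rintro ⟨a, b, hab, ha, rfl⟩
            rw [g.injective ha] at hab
            exact ⟨b, hab, rfl⟩
          · rintro ⟨b, hb, rfl⟩
            exact ⟨w, b, hb, rfl, rfl⟩
        rw [e, Set.ncard_image_of_injective _ g.injective]
        exact HG_deg _ _ _ _
      · have e : ((HG (tag (idx n)) (hgt (idx n)) π).map g).neighborSet v = ∅ := by
          rw [Set.eq_empty_iff_forall_notMem]
          intro y hy
          rw [SimpleGraph.mem_neighborSet, SimpleGraph.map_adj] at hy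
          obtain ⟨a, b, -, ha, -⟩ := hy
          exact hv ⟨a, ha⟩
        rw [e, Set.ncard_empty]
        omega
    · intro u v huv
      rw [SimpleGraph.map_adj]
      exact ⟨u, v, huv, rfl, rfl⟩
  · refine ⟨⊥, ?_, fun h => absurd h hn⟩
    intro v
    have e : (⊥ : SimpleGraph (Fin n)).neighborSet v = ∅ := by
      rw [Set.eq_empty_iff_forall_notMem]
      intro y hy
      rw [SimpleGraph.mem_neighborSet, SimpleGraph.bot_adj] at hy
      exact hy
    rw [e, Set.ncard_empty]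
    omega

theorem final : ∃ H : (n : ℕ) → SimpleGraph (Fin n),
    (∀ n v, ((H n).neighborSet v).ncard ≤ 3) ∧
    ∀ D C E : ℕ, 0 < E → ∃ n₀, ∀ n ≥ n₀,
    ∀ (W W' : Type) (G : SimpleGraph W) (G' : SimpleGraph W'),
    (∀ v, (G'.neighborSet v).Finite ∧ (G'.neighborSet v).ncard ≤ D) →
    ∀ R : Finset W', R.card ≤ n ^ C →
    (∀ x, ∃ φ : W → W', φ x ∈ R ∧
      Set.InjOn φ {u | G.edist x u ≤ (Nat.log 2 n / E : ℕ)} ∧
      ∀ u v, G.edist x u ≤ (Nat.log 2 n / E : ℕ) → G.edist x v ≤ (Nat.log 2 n / E : ℕ) →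
        G.Adj u v → G'.Adj (φ u) (φ v)) →
    ∃ c : W → W → Bool, (∀ x y, c x y = c y x) ∧ ∀ b, ¬ ∃ f : Fin n → W,
      Function.Injective f ∧ ∀ u v, (H n).Adj u v → G.Adj (f u) (f v) ∧ c (f u) (f v) = b := by
  choose H hH1 hH2 using exists_H
  refine ⟨H, hH1, ?_⟩
  intro D C E hE
  obtain ⟨r₀, hr₀⟩ := hosts D C E hE
  refine ⟨Fintype.card (V (tag (max r₀ 1)) (hgt (max r₀ 1))), ?_⟩
  intro n hn W W' G G' hD R hR hloc
  obtain ⟨h1, h2, h3⟩ := idx_spec _ _ hn
  obtain ⟨π, hπ, g, hg, hgadj⟩ := hH2 n h2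
  have h4 : r₀ ≤ idx n := (le_max_left _ _).trans h1
  have h5 : 1 ≤ idx n := (le_max_right _ _).trans h1
  have h6 : n ≤ 2 ^ (8 * hgt (idx n)) := h3.le.trans (card_V_upper _ h5)
  have h7 : hgt (idx n) ≤ Nat.log 2 n :=
    Nat.le_log_of_pow_le (by norm_num) ((card_V_lower _).trans h2)
  obtain ⟨c, hc, hcc⟩ := hr₀ (idx n) h4 π hπ W W' G G' hD R
    (hR.trans (Nat.pow_le_pow_left h6 C)) (Nat.log 2 n / E) (Nat.div_le_div_right h7) hloc
  refine ⟨c, hc, ?_⟩
  rintro b ⟨f, hf, hfc⟩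
  exact hcc b ⟨f ∘ g, hf.comp hg, fun u v huv => hfc _ _ (hgadj u v huv)⟩

end Pool.Agent.Helper45.DR
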