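import Pool.Agent.Helper45.DR.Main

set_option autoImplicit false

/-!
Bounded degree Ramsey hosts must have superpolynomially many local types (MP_74ecc6_co).
-/

namespace Pool.Agent.Helper45.DR.OldPoly

/-- One sequence of graphs `H n` of maximum degree at most 3 with the following property for all
`D`, `C`, `E > 0` and all large `n`: if every ball of radius `log₂ n / E` of a graph `G` embeds in
a fixed graph `G'` of maximum degree at most `D` with its centre going to one of at most `n ^ C`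
vertices, then `G` is not Ramsey with respect to `H n`. -/
theorem result : ∃ H : (n : ℕ) → SimpleGraph (Fin n),
    (∀ n v, ((H n).neighborSet v).ncard ≤ 3) ∧
    ∀ D C E : ℕ, 0 < E → ∃ n₀, ∀ n ≥ n₀,
    ∀ (W W' : Type) (G : SimpleGraph W) (G' : SimpleGraph W'),
    (∀ v, (G'.neighborSet v).Finite ∧ (G'.neighborSet v).ncard ≤ D) →
    ∀ R : Finset W', R.card ≤ n ^ C →
    (∀ x, ∃ φ : W → W', φ x ∈ R ∧
      Set.InjOn φ {u | G.edist x u ≤ (Nat.log 2 n / E : ℕ)} ∧
      ∀ u v, G.edist x u ≤ (Nat.log 2 n / E : ℕ) → G.edist x v ≤ (Nat.log 2 n / E : ℕ) →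
        G.Adj u v → G'.Adj (φ u) (φ v)) →
    ∃ c : W → W → Bool, (∀ x y, c x y = c y x) ∧ ∀ b, ¬ ∃ f : Fin n → W,
      Function.Injective f ∧ ∀ u v, (H n).Adj u v → G.Adj (f u) (f v) ∧ c (f u) (f v) = b :=
  Pool.Agent.Helper45.DR.final

/-- In particular no host of maximum degree at most `D` with at most `n ^ C` vertices, and no
host with at most `n ^ C` orbits of automorphisms (for instance no vertex transitive host), is
Ramsey with respect to `H n`. -/
theorem orbits : ∃ H : (n : ℕ) → SimpleGraph (Fin n),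
    (∀ n v, ((H n).neighborSet v).ncard ≤ 3) ∧
    ∀ D C : ℕ, ∃ n₀, ∀ n ≥ n₀, ∀ (m : ℕ) (G : SimpleGraph (Fin m)),
    (∀ v, (G.neighborSet v).ncard ≤ D) →
    (∃ R : Finset (Fin m), R.card ≤ n ^ C ∧ ∀ x, ∃ e : G ≃g G, e x ∈ R) →
    ∃ c : Fin m → Fin m → Bool, (∀ x y, c x y = c y x) ∧ ∀ b, ¬ ∃ f : Fin n → Fin m,
      Function.Injective f ∧ ∀ u v, (H n).Adj u v → G.Adj (f u) (f v) ∧ c (f u) (f v) = b := by
  obtain ⟨H, hH, hH2⟩ := result
  refine ⟨H, hH, fun D C => ?_⟩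
  obtain ⟨n₀, hn₀⟩ := hH2 D C 1 one_pos
  refine ⟨n₀, fun n hn m G hD => ?_⟩
  rintro ⟨R, hR, he⟩
  refine hn₀ n hn (Fin m) (Fin m) G G (fun v => ⟨Set.toFinite _, hD v⟩) R hR ?_
  intro x
  obtain ⟨e, hex⟩ := he x
  exact ⟨e, hex, e.injective.injOn, fun u v _ _ huv => e.map_rel_iff.2 huv⟩

end Pool.Agent.Helper45.DR.OldPoly
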